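import Mathlib

namespace Pool.Agent.Results.MP_c86b5e_nt.Empty

/-- One generating move: a transposition of coordinates or the Vieta involution. -/
def Move {F : Type} [CommRing F] (u v : F × F × F) : Prop :=
  v = (u.2.1, u.1, u.2.2) ∨ v = (u.1, u.2.2, u.2.1) ∨ v = (u.1, u.2.1, u.1 * u.2.1 - u.2.2)

/-- The orbit of a triple. -/
def orbit {F : Type} [CommRing F] (u : F × F × F) : Set (F × F × F) :=
  {v | Relation.EqvGen Move u v}

/-- The level set. -/
def M {F : Type} [CommRing F] (k : F) : Set (F × F × F) :=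
  {u | u.1 ^ 2 + u.2.1 ^ 2 + u.2.2 ^ 2 - u.1 * u.2.1 * u.2.2 - 2 = k}

/-- The listed exceptional triples. -/
def Exc {F : Type} [CommRing F] (u : F × F × F) : Prop :=
  (∃ t, u = (t, 0, 0)) ∨ u = (1, 1, 0) ∨ (∃ s, s ^ 2 = 2 ∧ u = (s, 1, 0)) ∨
    ∃ s a b, s ^ 2 = 5 ∧ 2 * a = 1 + s ∧ 2 * b = 1 - s ∧
      (u = (a, b, 0) ∨ u = (a, 1, 0) ∨ u = (b, 1, 0))

/-- The union of the exceptional orbits at level `k`. -/
def E {F : Type} [CommRing F] (k : F) : Set (F × F × F) :=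
  {v | ∃ u, Exc u ∧ orbit u ⊆ M k ∧ v ∈ orbit u}

/-- One round of moves on a list. -/
def grow (l : List (ZMod 11 × ZMod 11 × ZMod 11)) : List (ZMod 11 × ZMod 11 × ZMod 11) :=
  (l ++ l.flatMap fun u =>
    [(u.2.1, u.1, u.2.2), (u.1, u.2.2, u.2.1), (u.1, u.2.1, u.1 * u.2.1 - u.2.2)]).dedup

lemma orbit_sub {F : Type} [CommRing F] {u : F × F × F} {k : F} (h : u ∈ M k) : orbit u ⊆ M k := by
  have key : ∀ a b : F × F × F, Relation.EqvGen Move a b → (a ∈ M k ↔ b ∈ M k) := by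
    intro a b hab
    induction hab with
    | rel a b h =>
      rcases h with rfl | rfl | rfl <;> simp only [M, Set.mem_setOf_eq] <;>
        constructor <;> intro h <;> linear_combination h
    | refl => rfl
    | symm _ _ _ ih => exact ih.symm
    | trans _ _ _ _ _ ih1 ih2 => exact ih1.trans ih2
  exact fun v hv => (key u v hv).1 h

lemma grow_sub (l : List (ZMod 11 × ZMod 11 × ZMod 11)) (h : ∀ v ∈ l, v ∈ E (1 : ZMod 11)) :
    ∀ v ∈ grow l, v ∈ E (1 : ZMod 11) := by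
  intro v hv
  simp only [grow, List.mem_dedup, List.mem_append, List.mem_flatMap] at hv
  rcases hv with hv | ⟨u, hu, hv⟩
  · exact h v hv
  · obtain ⟨w, w1, w2, w3⟩ := h u hu
    exact ⟨w, w1, w2, .trans _ _ _ w3 (.rel _ _ (by simpa [Move] using hv))⟩

lemma iter_sub (n : ℕ) : ∀ v ∈ grow^[n] [(5, 0, 0), (6, 0, 0), (8, 4, 0)], v ∈ E (1 : ZMod 11) := by
  induction n with
  | zero =>
    intro v hv
    simp only [Function.iterate_zero, id, List.mem_cons, List.not_mem_nil, or_false] at hv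
    rcases hv with rfl | rfl | rfl
    · exact ⟨_, Or.inl ⟨5, rfl⟩, orbit_sub (show _ = _ by decide), .refl _⟩
    · exact ⟨_, Or.inl ⟨6, rfl⟩, orbit_sub (show _ = _ by decide), .refl _⟩
    · exact ⟨_, Or.inr (Or.inr (Or.inr ⟨4, 8, 4, by decide, by decide, by decide, Or.inl rfl⟩)),
        orbit_sub (show _ = _ by decide), .refl _⟩
  | succ n ih => rw [Function.iterate_succ_apply']; exact grow_sub _ ih

lemma all_in : ∀ x y z : ZMod 11, x ^ 2 + y ^ 2 + z ^ 2 - x * y * z - 2 = 1 →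
    (x, y, z) ∈ grow^[11] [(5, 0, 0), (6, 0, 0), (8, 4, 0)] := by decide +kernel

theorem result : ∃ (p : ℕ) (k : ZMod p), p.Prime ∧ Odd p ∧ k ≠ 2 ∧ k ≠ -2 ∧
    M k \ E k = ∅ ∧ ¬∃ u, M k \ E k = orbit u := by
  have h : M (1 : ZMod 11) \ E 1 = ∅ :=
    Set.diff_eq_empty.2 fun v hv => iter_sub 11 v (all_in _ _ _ hv)
  refine ⟨11, 1, by norm_num, by decide, by decide, by decide, h, ?_⟩
  rintro ⟨u, hu⟩
  have : u ∈ orbit u := .refl _
  rw [← hu, h] at this
  exact this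

end Pool.Agent.Results.MP_c86b5e_nt.Empty
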